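import Pool.Agent.Helper4.SQE.F04

set_option autoImplicit false

/-!
# Positive square energy of connected graphs

For every connected graph `G` with `n` vertices the sum `s⁺(G)` of the squares of the positive
eigenvalues of the adjacency matrix is at least `n - 1`, with equality if and only if `G` is a
tree.
-/

namespace Pool.Agent.Results.MP_ceef50_co.PositiveSquareEnergy

/-- the positive square energy `s⁺(G)`: the sum of the squares of the positive eigenvalues of the
adjacency matrix of `G`, with multiplicity -/
noncomputable def sPlus {V : Type*} [Fintype V] [DecidableEq V] (G : SimpleGraph V)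
    [DecidableRel G.Adj] : ℝ :=
  ∑ k, if 0 < (G.isHermitian_adjMatrix ℝ).eigenvalues k
    then ((G.isHermitian_adjMatrix ℝ).eigenvalues k) ^ 2 else 0

theorem result {V : Type*} [Fintype V] [DecidableEq V] (G : SimpleGraph V) [DecidableRel G.Adj]
    (hG : G.Connected) :
    (Fintype.card V : ℝ) - 1 ≤ sPlus G ∧
    (sPlus G = (Fintype.card V : ℝ) - 1 ↔ G.IsTree) :=
  SQE.final G (G.isHermitian_adjMatrix ℝ) hG

end Pool.Agent.Results.MP_ceef50_co.PositiveSquareEnergy
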